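import Pool.Agent.W81.FH.Main

/-!
All polynomials of height at most `H`.
-/

namespace Pool.Agent.W81.FH

open Finset Polynomial Filter
open Pool.Agent.H442R2.EHI (evt_log_pow evt_log_ge)
open Pool.Agent.H300R2.BH
open Pool.Agent.H300R2.FB

/-- the integer polynomial with coefficient vector `c` -/
noncomputable def pol {j : ℕ} (c : Fin (j + 1) → ℤ) : ℤ[X] :=
  ∑ i : Fin (j + 1), C (c i) * X ^ (i : ℕ)

/-- coefficient vectors of height at most `H` -/
noncomputable def hbox (j H : ℕ) : Finset (Fin (j + 1) → ℤ) := Fintype.piFinset fun _ => Icc (-(H : ℤ)) H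

lemma mem_hbox {j H : ℕ} {c : Fin (j + 1) → ℤ} : c ∈ hbox j H ↔ ∀ i, -(H:ℤ) ≤ c i ∧ c i ≤ H := by
  unfold hbox
  rw [Fintype.mem_piFinset]
  simp only [mem_Icc]

/-- the parameters of a polynomial with positive leading coefficient -/
def phi {j : ℕ} (H : ℕ) (c : Fin (j + 1) → ℤ) : (Fin (j - 1) → ℤ) × ℕ × ℕ :=
  (fun i => c ⟨i + 1, by omega⟩, (c 0 + H + 1).toNat, (c (Fin.last j)).toNat)

lemma pol_phi (j : ℕ) (hj : 1 ≤ j) (H : ℕ) (c : Fin (j + 1) → ℤ) (hc : c ∈ hbox j H)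
    (hp : 0 ≤ c (Fin.last j)) : FP j H (phi H c).1 (phi H c).2.1 (phi H c).2.2 = pol c := by
  obtain ⟨j', rfl⟩ : ∃ j', j = j' + 1 := ⟨j - 1, by omega⟩
  rw [mem_hbox] at hc
  have h0 := hc 0
  have e1 : (((c 0 + H + 1).toNat : ℕ) : ℤ) = c 0 + H + 1 := Int.toNat_of_nonneg (by omega)
  have e2 : (((c (Fin.last (j' + 1))).toNat : ℕ) : ℤ) = c (Fin.last (j' + 1)) := Int.toNat_of_nonneg hp
  unfold FP FF Rr pol phi
  rw [Fin.sum_univ_succ, Fin.sum_univ_castSucc]
  simp only [e1, e2, one_mul, add_zero, Fin.val_zero, pow_zero, mul_one, Fin.val_succ,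
    Fin.val_castSucc, Fin.val_last, Fin.succ_last]
  have e3 : C (c 0 + H + 1) + (C (-(H : ℤ) - 1) + ∑ i : Fin (j' + 1 - 1), C (c ⟨i + 1, by omega⟩) *
      (X : ℤ[X]) ^ ((i : ℕ) + 1)) + C (c (Fin.last (j' + 1))) * X ^ (j' + 1) =
      C (c 0) + (∑ i : Fin (j' + 1 - 1), C (c ⟨i + 1, by omega⟩) * (X : ℤ[X]) ^ ((i : ℕ) + 1) +
      C (c (Fin.last (j' + 1))) * X ^ (j' + 1)) := by
    have e4 : (C (c 0 + H + 1) : ℤ[X]) + C (-(H : ℤ) - 1) = C (c 0) := by
      rw [← C_add]; congr 1; ring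
    rw [← e4]; ring
  exact e3

lemma phi_inj (j : ℕ) (H : ℕ) (c c' : Fin (j + 1) → ℤ) (hc : c ∈ hbox j H)
    (hc' : c' ∈ hbox j H) (hp : 0 ≤ c (Fin.last j)) (hp' : 0 ≤ c' (Fin.last j))
    (h : phi H c = phi H c') : c = c' := by
  rw [mem_hbox] at hc hc'
  unfold phi at h
  rw [Prod.mk.injEq, Prod.mk.injEq] at h
  obtain ⟨h1, h2, h3⟩ := h
  funext i
  by_cases hi0 : (i : ℕ) = 0
  · have : i = 0 := Fin.ext (by simpa using hi0)
    rw [this]
    have := hc 0
    have := hc' 0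
    omega
  · by_cases hil : (i : ℕ) = j
    · have : i = Fin.last j := Fin.ext (by simpa using hil)
      rw [this]
      omega
    · have hi := i.2
      have h4 := congrFun h1 ⟨i - 1, by omega⟩
      simp only at h4
      have h5 : (⟨(i : ℕ) - 1 + 1, by omega⟩ : Fin (j + 1)) = i := Fin.ext (by simp; omega)
      rw [h5] at h4
      exact h4

lemma pol_neg {j : ℕ} (c : Fin (j + 1) → ℤ) : pol (fun i => - c i) = - pol c := by
  unfold pol
  rw [← sum_neg_distrib]
  refine sum_congr rfl fun i _ => ?_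
  rw [C_neg, neg_mul]

lemma rho_neg (F : ℤ[X]) (p : ℕ) : rho (-F) p = rho F p := by
  unfold rho
  simp only [eval_neg, dvd_neg]

lemma SS_neg (z : ℕ) (F : ℤ[X]) : SS z (-F) = SS z F := by
  unfold SS
  simp only [rho_neg]

lemma pa_neg (F : ℤ[X]) (K : ℕ) : pa (-F) K = pa F K := by
  unfold pa
  simp only [eval_neg, Int.natAbs_neg]

lemma la_neg (F : ℤ[X]) (K : ℕ) : la (-F) K = la F K := by
  unfold la
  simp only [eval_neg, abs_neg, Int.cast_neg]

lemma Bad_neg (lo : ℕ → ℕ → ℝ) (U B H z : ℕ) (F : ℤ[X]) : Bad lo U B H z (-F) ↔ Bad lo U B H z F := by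
  unfold Bad NoFix GA
  simp only [SS_neg, la_neg, pa_neg, eval_neg, dvd_neg]

open Classical in
theorem box_count (j : ℕ) (hj : 1 ≤ j) (lo : ℕ → ℕ → ℝ) (hlo : LoHyp lo) (hm : MeanHyp j lo)
    (U : ℕ) : ∃ E' : ℕ, ∀ E : ℕ, E' ≤ E → ∃ B0 : ℕ, ∀ B : ℕ, B0 ≤ B → ∃ H0 : ℕ, ∀ H : ℕ, H0 ≤ H →
    (((hbox j H).filter (fun c => Bad lo U B H ⌊Real.log H ^ E⌋₊ (pol c))).card : ℝ) ≤
      (2 * H + 1) ^ (j + 1) / Real.log H ^ U := by
  obtain ⟨E', h1⟩ := pos_part j hj lo hlo hm U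
  refine ⟨E', fun E hE => ?_⟩
  obtain ⟨B0, h2⟩ := h1 E hE
  refine ⟨B0, fun B hB => ?_⟩
  obtain ⟨H1, h3⟩ := h2 B hB
  have hev : ∀ᶠ H : ℕ in atTop, H1 ≤ H ∧ 3 ≤ H ∧ 8 ≤ Real.log H ∧
      Real.log H ^ (U + 2) ≤ (H : ℝ) ^ (1 : ℝ) := by
    filter_upwards [eventually_ge_atTop H1, eventually_ge_atTop 3, evt_log_ge 8,
      evt_log_pow (U + 2) 1 (by norm_num)] with H a1 a2 a3 a4
    exact ⟨a1, a2, a3, a4⟩
  obtain ⟨H0, hH0⟩ := eventually_atTop.mp hev
  refine ⟨H0, fun H hH => ?_⟩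
  obtain ⟨hH1, hH3, hL8, hLH⟩ := hH0 H hH
  rw [Real.rpow_one] at hLH
  have hpos := h3 H hH1
  set L := Real.log H with hLdef
  set z := ⌊L ^ E⌋₊ with hz
  set M := ⌊(H : ℝ) / L ^ (U + 2)⌋₊ with hM
  have hL0 : 0 < L := by linarith
  have hLp0 : ∀ n : ℕ, 0 < L ^ n := fun n => by positivity
  have hHr : (3:ℝ) ≤ H := by exact_mod_cast hH3
  set P : ℝ := (2 * H + 1) ^ (j + 1) with hP
  have hP0 : 0 < P := by positivity
  set Sp := (hbox j H).filter (fun c => (M : ℤ) < c (Fin.last j) ∧ Bad lo U B H z (pol c)) with hSp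
  set Sm := (hbox j H).filter (fun c => c (Fin.last j) < -(M : ℤ) ∧ Bad lo U B H z (pol c)) with hSm
  set S0 := (hbox j H).filter (fun c => -(M : ℤ) ≤ c (Fin.last j) ∧ c (Fin.last j) ≤ (M : ℤ)) with hS0
  have hcover : (hbox j H).filter (fun c => Bad lo U B H z (pol c)) ⊆ S0 ∪ (Sp ∪ Sm) := by
    intro c hc
    rw [mem_filter] at hc
    rw [mem_union, mem_union, hS0, hSp, hSm, mem_filter, mem_filter, mem_filter]
    by_cases h4 : (M : ℤ) < c (Fin.last j)
    · exact Or.inr (Or.inl ⟨hc.1, h4, hc.2⟩)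
    · by_cases h5 : c (Fin.last j) < -(M : ℤ)
      · exact Or.inr (Or.inr ⟨hc.1, h5, hc.2⟩)
      · exact Or.inl ⟨hc.1, by omega, by omega⟩
  -- positive part
  have hSpc : (Sp.card : ℝ) ≤ P / L ^ (U + 1) := by
    refine le_trans ?_ hpos
    rw [Nat.cast_le]
    apply card_le_card_of_injOn (phi H)
    · intro c hc
      rw [mem_coe, hSp, mem_filter] at hc
      obtain ⟨hc1, hc2, hc3⟩ := hc
      have hM0 : (0:ℤ) ≤ M := Int.natCast_nonneg _
      have hc0 : 0 ≤ c (Fin.last j) := by omega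
      rw [mem_coe, mem_filter]
      refine ⟨?_, by rw [pol_phi j hj H c hc1 hc0]; exact hc3⟩
      rw [mem_hbox] at hc1
      unfold TT' bx phi
      rw [mem_product, mem_product, mem_Ioc, mem_Ioc, Fintype.mem_piFinset]
      have a0 := hc1 0
      have al := hc1 (Fin.last j)
      refine ⟨fun i => ?_, ⟨by simp only; omega, by simp only; omega⟩, by simp only; omega, by simp only; omega⟩
      rw [mem_Icc]
      exact hc1 _
    · intro c hc c' hc' h
      rw [mem_coe, hSp, mem_filter] at hc hc'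
      have hM0 : (0:ℤ) ≤ M := Int.natCast_nonneg _
      exact phi_inj j H c c' hc.1 hc'.1 (by omega) (by omega) h
  -- negative part
  have hSmc : (Sm.card : ℝ) ≤ P / L ^ (U + 1) := by
    refine le_trans ?_ hSpc
    rw [Nat.cast_le]
    apply card_le_card_of_injOn (fun c : Fin (j + 1) → ℤ => fun i => - c i)
    · intro c hc
      rw [mem_coe, hSm, mem_filter] at hc
      obtain ⟨hc1, hc2, hc3⟩ := hc
      rw [mem_coe, hSp, mem_filter]
      refine ⟨?_, by simp only; omega, ?_⟩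
      · rw [mem_hbox] at hc1 ⊢
        intro i
        have := hc1 i
        simp only
        omega
      · rw [pol_neg, Bad_neg]; exact hc3
    · intro c _ c' _ h
      funext i
      have := congrFun h i
      simp only at this
      omega
  -- small leading coefficient
  have hS0c : (S0.card : ℝ) ≤ P * (2 / L ^ (U + 2)) := by
    have h4 : S0 ⊆ Fintype.piFinset (fun i : Fin (j + 1) =>
        if i = Fin.last j then Icc (-(M : ℤ)) M else Icc (-(H : ℤ)) H) := by
      intro c hc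
      rw [hS0, mem_filter, mem_hbox] at hc
      rw [Fintype.mem_piFinset]
      intro i
      split_ifs with hi
      · rw [hi, mem_Icc]; exact hc.2
      · rw [mem_Icc]; exact hc.1 i
    have h5 := card_le_card h4
    rw [Fintype.card_piFinset, Fin.prod_univ_castSucc] at h5
    have h6 : ∀ i : Fin j, (if (Fin.castSucc i) = Fin.last j then Icc (-(M : ℤ)) M else
        Icc (-(H : ℤ)) H).card = 2 * H + 1 := by
      intro i
      rw [if_neg (Fin.castSucc_lt_last i).ne, Int.card_Icc]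
      omega
    rw [prod_congr rfl (fun i _ => h6 i), prod_const, card_univ, Fintype.card_fin, if_pos rfl,
      Int.card_Icc] at h5
    have h7 : ((M : ℤ) + 1 - -(M : ℤ)).toNat = 2 * M + 1 := by omega
    rw [h7] at h5
    have h8 : (S0.card : ℝ) ≤ (2 * H + 1) ^ j * (2 * M + 1) := by exact_mod_cast h5
    refine h8.trans ?_
    have hMle : (M : ℝ) ≤ H / L ^ (U + 2) := Nat.floor_le (by positivity)
    have h9 : (2 * (M:ℝ) + 1) ≤ (2 * H + 1) * (2 / L ^ (U + 2)) := by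
      have h10 : 1 ≤ (H:ℝ) / L ^ (U + 2) := by
        rw [le_div_iff₀ (hLp0 _), one_mul]; exact hLH
      have h11 : (2 * (H:ℝ) + 1) * (2 / L ^ (U + 2)) = 4 * (H / L ^ (U + 2)) + 2 / L ^ (U + 2) := by
        field_simp
        ring
      rw [h11]
      have : 0 < 2 / L ^ (U + 2) := by positivity
      linarith
    calc (2 * (H:ℝ) + 1) ^ j * (2 * M + 1) ≤ (2 * (H:ℝ) + 1) ^ j * ((2 * H + 1) * (2 / L ^ (U + 2))) := by
          gcongr
      _ = P * (2 / L ^ (U + 2)) := by rw [hP, pow_succ]; ring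
  have hfin : (((hbox j H).filter (fun c => Bad lo U B H z (pol c))).card : ℝ) ≤
      S0.card + (Sp.card + Sm.card) := by
    have h4 := card_le_card hcover
    have h5 := card_union_le S0 (Sp ∪ Sm)
    have h6 := card_union_le Sp Sm
    have h7 : ((hbox j H).filter (fun c => Bad lo U B H z (pol c))).card ≤ S0.card + (Sp.card + Sm.card) := by
      omega
    exact_mod_cast h7
  refine hfin.trans ?_
  calc (S0.card : ℝ) + (Sp.card + Sm.card) ≤ P * (2 / L ^ (U + 2)) + (P / L ^ (U + 1) + P / L ^ (U + 1)) := by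
        gcongr
    _ = P / L ^ U * (2 / L ^ 2 + 2 / L) := by
        rw [pow_add L U 2, pow_succ L U]
        field_simp
        ring
    _ ≤ P / L ^ U * 1 := by
        apply mul_le_mul_of_nonneg_left _ (by positivity)
        have h1 : 2 / L ≤ 2 / 8 := div_le_div_of_nonneg_left (by norm_num) (by norm_num) hL8
        have h2 : 2 / L ^ 2 ≤ 2 / 8 := div_le_div_of_nonneg_left (by norm_num) (by norm_num) (by nlinarith)
        linarith
    _ = P / L ^ U := mul_one _

end Pool.Agent.W81.FH
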