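import Mathlib

/-!
From a mean value for every `K` to a simultaneous statement for all `K`.
-/

namespace Pool.Agent.W81.FH

open Finset

open Classical in
/-- Markov's inequality with the weights `1 / K ^ 2`. -/
theorem count_bad {ι : Type*} (T : Finset ι) (G : ι → ℕ → ℝ) (L lo C1 : ℝ) (H B1 U2 : ℕ)
    (hL : 2 ≤ L) (hlo : 1 ≤ lo) (hC1 : 0 ≤ C1)
    (hmean : ∀ K : ℕ, lo ≤ K → (K : ℝ) * L ^ B1 ≤ H → ∑ p ∈ T, G p K ≤ C1 * K)
    (hG0 : ∀ p ∈ T, ∀ K, 0 ≤ G p K)
    (hlip : ∀ p ∈ T, ∀ x y : ℕ, x ≤ y → |G p y - G p x| ≤ 3 * L * ((y : ℝ) - x)) :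
    ((T.filter (fun p => ∃ x : ℕ, lo ≤ x ∧ (x : ℝ) * L ^ (B1 + 1) ≤ H ∧
      (x : ℝ) / L ^ U2 < G p x)).card : ℝ) ≤ 96 * L ^ (2 * U2 + 1) * (C1 * (1 + Real.log H)) := by
  have hL0 : 0 < L := by linarith
  have hL1 : 1 ≤ L := by linarith
  have hLp : ∀ n : ℕ, 0 < L ^ n := fun n => by positivity
  set 𝒦 : Finset ℕ := (Icc 1 H).filter (fun K => lo ≤ (K : ℝ) ∧ (K : ℝ) * L ^ B1 ≤ H) with h𝒦
  set S : ι → ℝ := fun p => ∑ K ∈ 𝒦, G p K / (K : ℝ) ^ 2 with hS
  have hS0 : ∀ p ∈ T, 0 ≤ S p := fun p hp => sum_nonneg fun K _ => div_nonneg (hG0 p hp K) (by positivity)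
  -- total mass
  have htot : ∑ p ∈ T, S p ≤ C1 * (1 + Real.log H) := by
    rw [hS, sum_comm]
    calc ∑ K ∈ 𝒦, ∑ p ∈ T, G p K / (K : ℝ) ^ 2 ≤ ∑ K ∈ 𝒦, C1 * (1 / (K : ℝ)) := by
          refine sum_le_sum fun K hK => ?_
          rw [h𝒦, mem_filter, mem_Icc] at hK
          obtain ⟨⟨hK1, hK2⟩, hK3, hK4⟩ := hK
          have hK0 : (0 : ℝ) < K := by exact_mod_cast hK1
          rw [← sum_div, div_le_iff₀ (by positivity)]
          refine (hmean K hK3 hK4).trans (le_of_eq ?_)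
          field_simp
      _ ≤ ∑ K ∈ Icc 1 H, C1 * (1 / (K : ℝ)) := by
          apply sum_le_sum_of_subset_of_nonneg (filter_subset _ _)
          intro K _ _
          positivity
      _ = C1 * (harmonic H : ℝ) := by
          rw [← mul_sum, harmonic_eq_sum_Icc]
          push_cast
          simp only [one_div]
      _ ≤ C1 * (1 + Real.log H) := by
          apply mul_le_mul_of_nonneg_left _ hC1
          exact harmonic_le_one_add_log H
  -- the mass of a bad index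
  have hbad : ∀ p ∈ T.filter (fun p => ∃ x : ℕ, lo ≤ x ∧ (x : ℝ) * L ^ (B1 + 1) ≤ H ∧
      (x : ℝ) / L ^ U2 < G p x), 1 / (96 * L ^ (2 * U2 + 1)) ≤ S p := by
    intro p hp
    rw [mem_filter] at hp
    obtain ⟨hpT, x, hx1, hx2, hx3⟩ := hp
    have hxr : (1 : ℝ) ≤ x := hlo.trans hx1
    have hx0 : (0 : ℝ) < x := by linarith
    have hxn : 1 ≤ x := by exact_mod_cast hxr
    set y := ⌊(x : ℝ) / (12 * L ^ (U2 + 1))⌋₊ with hy
    have hyle : (y : ℝ) ≤ x / (12 * L ^ (U2 + 1)) := Nat.floor_le (by positivity)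
    have hyge : (x : ℝ) / (12 * L ^ (U2 + 1)) < y + 1 := Nat.lt_floor_add_one _
    have hyx : (y : ℝ) ≤ x := by
      refine hyle.trans (div_le_self hx0.le ?_)
      have : 1 ≤ L ^ (U2 + 1) := one_le_pow₀ hL1
      linarith
    have hyxn : y ≤ x := by exact_mod_cast hyx
    have hsub : Icc x (x + y) ⊆ 𝒦 := by
      intro K hK
      rw [mem_Icc] at hK
      rw [h𝒦, mem_filter, mem_Icc]
      have hK2 : (K : ℝ) ≤ 2 * x := by
        have : (K : ℝ) ≤ x + y := by exact_mod_cast hK.2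
        linarith
      have hKH : (K : ℝ) * L ^ B1 ≤ H := by
        calc (K : ℝ) * L ^ B1 ≤ (2 * x) * L ^ B1 := by gcongr
          _ ≤ (L * x) * L ^ B1 := by gcongr
          _ = x * L ^ (B1 + 1) := by ring
          _ ≤ H := hx2
      refine ⟨⟨hxn.trans hK.1, ?_⟩, hx1.trans (by exact_mod_cast hK.1), hKH⟩
      have h1 : (K : ℝ) ≤ H := by
        refine le_trans ?_ hKH
        exact le_mul_of_one_le_right (Nat.cast_nonneg _) (one_le_pow₀ hL1)
      exact_mod_cast h1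
    have hterm : ∀ K ∈ Icc x (x + y), 1 / (8 * L ^ U2 * x) ≤ G p K / (K : ℝ) ^ 2 := by
      intro K hK
      rw [mem_Icc] at hK
      have hKx : (x : ℝ) ≤ K := by exact_mod_cast hK.1
      have hKy : (K : ℝ) ≤ x + y := by exact_mod_cast hK.2
      have hK0 : (0 : ℝ) < K := by linarith
      have h1 := hlip p hpT x K hK.1
      have h2 := neg_abs_le (G p K - G p x)
      have h3 : 3 * L * ((K : ℝ) - x) ≤ x / L ^ U2 / 4 := by
        calc 3 * L * ((K : ℝ) - x) ≤ 3 * L * (x / (12 * L ^ (U2 + 1))) := by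
              apply mul_le_mul_of_nonneg_left _ (by positivity)
              linarith
          _ = x / L ^ U2 / 4 := by
              rw [pow_succ]
              field_simp
              ring
      have h5 : 0 < (x : ℝ) / L ^ U2 := by positivity
      have h4 : (x : ℝ) / L ^ U2 / 2 ≤ G p K := by linarith
      rw [div_le_div_iff₀ (by positivity) (by positivity), one_mul]
      have h6 : (K : ℝ) ^ 2 ≤ (2 * x) ^ 2 := by
        apply pow_le_pow_left₀ hK0.le
        linarith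
      calc (K : ℝ) ^ 2 ≤ (2 * x) ^ 2 := h6
        _ = (x / L ^ U2 / 2) * (8 * L ^ U2 * x) := by field_simp; ring
        _ ≤ G p K * (8 * L ^ U2 * x) := by gcongr
    calc 1 / (96 * L ^ (2 * U2 + 1)) = (x / (12 * L ^ (U2 + 1))) * (1 / (8 * L ^ U2 * x)) := by
          rw [show 2 * U2 + 1 = (U2 + 1) + U2 by ring, pow_add L (U2 + 1) U2]
          field_simp
          ring
      _ ≤ (y + 1) * (1 / (8 * L ^ U2 * x)) := by gcongr
      _ = ∑ K ∈ Icc x (x + y), 1 / (8 * L ^ U2 * x) := by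
          rw [sum_const, Nat.card_Icc, nsmul_eq_mul, show x + y + 1 - x = y + 1 by omega]
          push_cast
          ring
      _ ≤ ∑ K ∈ Icc x (x + y), G p K / (K : ℝ) ^ 2 := sum_le_sum hterm
      _ ≤ S p := by
          apply sum_le_sum_of_subset_of_nonneg hsub
          intro K _ _
          exact div_nonneg (hG0 p hpT K) (by positivity)
  set Bd := T.filter (fun p => ∃ x : ℕ, lo ≤ x ∧ (x : ℝ) * L ^ (B1 + 1) ≤ H ∧
      (x : ℝ) / L ^ U2 < G p x) with hBd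
  have h1 : (Bd.card : ℝ) * (1 / (96 * L ^ (2 * U2 + 1))) ≤ C1 * (1 + Real.log H) := by
    calc (Bd.card : ℝ) * (1 / (96 * L ^ (2 * U2 + 1))) = ∑ p ∈ Bd, 1 / (96 * L ^ (2 * U2 + 1)) := by
          rw [sum_const, nsmul_eq_mul]
      _ ≤ ∑ p ∈ Bd, S p := sum_le_sum hbad
      _ ≤ ∑ p ∈ T, S p := sum_le_sum_of_subset_of_nonneg (filter_subset _ _) fun p hp _ => hS0 p hp
      _ ≤ _ := htot
  have h2 : 0 < 96 * L ^ (2 * U2 + 1) := by positivity
  rw [mul_one_div, div_le_iff₀ h2] at h1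
  linarith

end Pool.Agent.W81.FH
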