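import Pool.Agent.W81.FH.Pos

/-!
Schinzel's asymptotic formula for almost all polynomials of height at most `H`, simultaneously for
all `x` of a long range.
-/

namespace Pool.Agent.W81.FH

open Finset Polynomial Filter
open Pool.Agent.H442R2.EHI (evt_log_pow evt_log_ge)
open Pool.Agent.H300R2.BH
open Pool.Agent.H300R2.FB

/-- the mean value theorem for every `K ≥ lo B H` -/
def MeanHyp (j : ℕ) (lo : ℕ → ℕ → ℝ) : Prop :=
  ∀ U : ℕ, ∃ E1 : ℕ, ∀ E : ℕ, E1 ≤ E → ∃ B H0 : ℕ, ∀ H : ℕ, H0 ≤ H → ∀ K : ℕ, lo B H ≤ K →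
    (K : ℝ) * Real.log H ^ B ≤ H →
    ∑ r ∈ bx j (fun _ => H), ∑ a ∈ Ioc 0 (0 + (2 * H + 1)), ∑ d ∈ Ioc 0 H,
      |pv (FP j H r a d) K - SS ⌊Real.log H ^ E⌋₊ (FP j H r a d) * lF (FP j H r a d) K| ≤
      ((bx j (fun _ => H)).card : ℝ) * ((2 * H + 1 : ℕ) : ℝ) * H * K / Real.log H ^ U

/-- the lower end of the range -/
def LoHyp (lo : ℕ → ℕ → ℝ) : Prop :=
  (∀ B B' H : ℕ, B ≤ B' → 3 ≤ H → lo B H ≤ lo B' H) ∧
  ∀ m : ℕ, ∃ B0 H0 : ℕ, ∀ H : ℕ, H0 ≤ H → Real.log H ^ m ≤ lo B0 H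

/-- the box with leading coefficient greater than `M` -/
noncomputable def TT' (j H M : ℕ) : Finset ((Fin (j - 1) → ℤ) × ℕ × ℕ) :=
  bx j (fun _ => H) ×ˢ (Ioc 0 (0 + (2 * H + 1)) ×ˢ Ioc M H)

/-- no fixed prime divisor up to `z` -/
def NoFix (z : ℕ) (F : ℤ[X]) : Prop := ∀ p : ℕ, p.Prime → p ≤ z → ∃ n : ℤ, ¬ (p : ℤ) ∣ F.eval n

/-- the formula fails somewhere -/
def Bad (lo : ℕ → ℕ → ℝ) (U B H z : ℕ) (F : ℤ[X]) : Prop :=
  NoFix z F ∧ ∃ x : ℕ, lo B H ≤ x ∧ (x : ℝ) * Real.log H ^ B ≤ H ∧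
    SS z F * la F x / Real.log H ^ U < GA z F x

lemma natDegree_FP (j H : ℕ) (hj : 1 ≤ j) (r : Fin (j - 1) → ℤ) (a e : ℕ) :
    (FP j H r a e).natDegree ≤ j := by
  unfold FP FF
  have h1 := natDegree_all j hj 0 (by rw [natDegree_zero]; omega) (-(H : ℤ) - 1) r
  refine (natDegree_add_le _ _).trans (max_le ?_ ?_)
  · refine (natDegree_add_le _ _).trans (max_le ?_ h1.le)
    rw [natDegree_C]; omega
  · exact natDegree_C_mul_X_pow_le _ _

lemma evt_loglog (c : ℝ) (hc : 0 < c) (E m : ℕ) :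
    ∀ᶠ H : ℕ in atTop, (E * Real.log (Real.log H)) ^ m ≤ c * Real.log H := by
  have h1 : (fun t : ℝ => Real.log t ^ m) =o[atTop] fun t : ℝ => t :=
    Real.isLittleO_pow_log_id_atTop
  have h2 := h1.bound (show (0:ℝ) < c / ((E : ℝ) ^ m + 1) by positivity)
  have h3 := (Real.tendsto_log_atTop.comp (tendsto_natCast_atTop_atTop (R := ℝ))).eventually h2
  filter_upwards [h3, evt_log_ge 1] with x hx hx2
  simp only [Function.comp] at hx
  have hl : 0 ≤ Real.log (Real.log x) := Real.log_nonneg hx2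
  rw [Real.norm_of_nonneg (by positivity), Real.norm_of_nonneg (by linarith)] at hx
  have hE : (0:ℝ) ≤ (E : ℝ) ^ m := by positivity
  calc (E * Real.log (Real.log x)) ^ m = (E : ℝ) ^ m * Real.log (Real.log x) ^ m := mul_pow _ _ _
    _ ≤ ((E : ℝ) ^ m + 1) * (c / ((E : ℝ) ^ m + 1) * Real.log x) := by
        apply mul_le_mul (by linarith) hx (by positivity) (by positivity)
    _ = c * Real.log x := by field_simp

open Classical in
theorem pos_part (j : ℕ) (hj : 1 ≤ j) (lo : ℕ → ℕ → ℝ) (hlo : LoHyp lo) (hm : MeanHyp j lo)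
    (U : ℕ) : ∃ E' : ℕ, ∀ E : ℕ, E' ≤ E → ∃ B0 : ℕ, ∀ B : ℕ, B0 ≤ B → ∃ H0 : ℕ, ∀ H : ℕ, H0 ≤ H →
    (((TT' j H ⌊(H : ℝ) / Real.log H ^ (U + 2)⌋₊).filter (fun p =>
      Bad lo U B H ⌊Real.log H ^ E⌋₊ (FP j H p.1 p.2.1 p.2.2))).card : ℝ) ≤
      (2 * H + 1) ^ (j + 1) / Real.log H ^ (U + 1) := by
  set V := U + 2 with hV
  set U2 := U + 3 with hU2
  set U1 := 3 * U + 11 with hU1
  obtain ⟨E1, hm1⟩ := hm U1
  obtain ⟨c, hc, hSl⟩ := SS_lower j hj
  refine ⟨max E1 1, fun E hE => ?_⟩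
  obtain ⟨B1, H1, hm2⟩ := hm1 E ((le_max_left _ _).trans hE)
  obtain ⟨B2, H2, hlo2⟩ := hlo.2 (V + 3 + U1)
  obtain ⟨H3, hSS⟩ := SS_small (E - 1)
  have hE1 : 1 ≤ E := (le_max_right _ _).trans hE
  rw [show E - 1 + 1 = E by omega] at hSS
  refine ⟨max B1 B2 + 1, fun B hB => ?_⟩
  have hev : ∀ᶠ H : ℕ in atTop, H1 ≤ H ∧ H2 ≤ H ∧ H3 ≤ H ∧ 3 ≤ H ∧ j + 1 ≤ H ∧
      200 * ((j : ℝ) + 2) ≤ Real.log H ∧ (E * Real.log (Real.log H)) ^ (2 * j) ≤ c * Real.log H := by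
    filter_upwards [eventually_ge_atTop H1, eventually_ge_atTop H2, eventually_ge_atTop H3,
      eventually_ge_atTop 3, eventually_ge_atTop (j + 1), evt_log_ge (200 * ((j : ℝ) + 2)),
      evt_loglog c hc E (2 * j)] with H h1 h2 h3 h4 h5 h6 h7
    exact ⟨h1, h2, h3, h4, h5, h6, h7⟩
  obtain ⟨H0, hH0⟩ := eventually_atTop.mp hev
  refine ⟨H0, fun H hH => ?_⟩
  obtain ⟨hH1, hH2, hH3, hH3', hHj, hL, hll⟩ := hH0 H hH
  set L := Real.log H with hLdef
  have hj1 : (1:ℝ) ≤ j := by exact_mod_cast hj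
  have hL600 : (600:ℝ) ≤ L := by nlinarith
  have hL0 : 0 < L := by linarith
  have hL1 : 1 ≤ L := by linarith
  have hLp0 : ∀ n : ℕ, 0 < L ^ n := fun n => by positivity
  have hLp : ∀ n : ℕ, 1 ≤ L ^ n := fun n => one_le_pow₀ hL1
  have hLmono : ∀ m n : ℕ, m ≤ n → L ^ m ≤ L ^ n := fun m n h => pow_le_pow_right₀ hL1 h
  have hHr : (3:ℝ) ≤ H := by exact_mod_cast hH3'
  have hH0' : (0:ℝ) < H := by linarith
  set z := ⌊L ^ E⌋₊ with hz
  obtain ⟨hz3, hSSz⟩ := hSS H hH3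
  rw [← hLdef, ← hz] at hz3 hSSz
  set M := ⌊(H : ℝ) / L ^ V⌋₊ with hM
  set K1 := ⌊((j : ℝ) + 2) * L ^ V⌋₊ with hK1
  have hK1le : (K1 : ℝ) ≤ ((j : ℝ) + 2) * L ^ V := Nat.floor_le (by positivity)
  have hK1lt : ((j : ℝ) + 2) * L ^ V < K1 + 1 := Nat.lt_floor_add_one _
  -- facts about the elements
  have hfacts : ∀ p ∈ TT' j H M, p.1 ∈ bx j (fun _ => H) ∧ p.2.1 ∈ Ioc 0 (0 + (2 * H + 1)) ∧
      M < p.2.2 ∧ p.2.2 ≤ H := by
    intro p hp
    unfold TT' at hp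
    rw [mem_product, mem_product] at hp
    have h1 := hp.2.2
    rw [mem_Ioc] at h1
    exact ⟨hp.1, hp.2.1, h1.1, h1.2⟩
  have hge2 : ∀ p ∈ TT' j H M, ∀ k : ℕ, K1 < k → 2 ≤ (FP j H p.1 p.2.1 p.2.2).eval (k : ℤ) := by
    intro p hp k hk
    obtain ⟨f1, f2, f3, f4⟩ := hfacts p hp
    have hk1 : (K1 : ℝ) + 1 ≤ k := by exact_mod_cast hk
    have hkr : ((j : ℝ) + 2) * L ^ V ≤ k := by linarith
    have he : (H : ℝ) / L ^ V ≤ p.2.2 := by
      have h1 : (H : ℝ) / L ^ V < M + 1 := Nat.lt_floor_add_one _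
      have h2 : (M : ℝ) + 1 ≤ p.2.2 := by exact_mod_cast f3
      linarith
    apply FP_lower j H hj _ f1 _ _ _ f2
    · have : (1:ℝ) ≤ k := by nlinarith [hLp V]
      exact_mod_cast this
    · calc (j : ℝ) * H + 2 ≤ ((j : ℝ) + 2) * H := by nlinarith
        _ = (H : ℝ) / L ^ V * (((j : ℝ) + 2) * L ^ V) := by field_simp
        _ ≤ p.2.2 * k := by
            apply mul_le_mul he hkr (by positivity) (Nat.cast_nonneg _)
  -- `lo`
  have hloB : ∀ x : ℕ, lo (B - 1) H ≤ x → lo B1 H ≤ x ∧ L ^ (V + 3 + U1) ≤ x := by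
    intro x hx
    have hb1 : B1 ≤ B - 1 := by
      have := le_max_left B1 B2
      omega
    have hb2 : B2 ≤ B - 1 := by
      have := le_max_right B1 B2
      omega
    exact ⟨(hlo.1 _ _ H hb1 hH3').trans hx,
      (hlo2 H hH2).trans ((hlo.1 _ _ H hb2 hH3').trans hx)⟩
  -- the mean value
  set cb : ℝ := ((bx j (fun _ => H)).card : ℝ) * ((2 * H + 1 : ℕ) : ℝ) * H with hcb
  have hcb0 : 0 ≤ cb := by positivity
  have hTc : ((TT' j H M).card : ℝ) ≤ cb := by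
    unfold TT'
    rw [card_product, card_product, Nat.card_Ioc, Nat.card_Ioc, hcb, mul_assoc]
    push_cast
    have h1 : ((H - M : ℕ) : ℝ) ≤ H := by exact_mod_cast Nat.sub_le H M
    have h2 : (((0 + (2 * H + 1)) - 0 : ℕ) : ℝ) = 2 * H + 1 := by
      rw [Nat.zero_add, Nat.sub_zero]; push_cast; ring
    rw [h2]
    gcongr
  have hmean : ∀ K : ℕ, max (lo (B - 1) H) 1 ≤ K → (K : ℝ) * L ^ (B - 1) ≤ H →
      ∑ p ∈ TT' j H M, GA z (FP j H p.1 p.2.1 p.2.2) K ≤ (2 * cb / L ^ U1) * K := by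
    intro K hK hKH
    obtain ⟨hK1', hK2'⟩ := hloB K ((le_max_left _ _).trans hK)
    have hKB1 : (K : ℝ) * L ^ B1 ≤ H := by
      refine le_trans ?_ hKH
      have hb1 : B1 ≤ B - 1 := by
        have := le_max_left B1 B2
        omega
      gcongr
    have h1 := hm2 H hH1 K hK1' hKB1
    rw [← hLdef, ← hz] at h1
    have hK0 : (0:ℝ) ≤ K := Nat.cast_nonneg _
    have h2 : ∑ p ∈ TT' j H M, |pv (FP j H p.1 p.2.1 p.2.2) K -
        SS z (FP j H p.1 p.2.1 p.2.2) * lF (FP j H p.1 p.2.1 p.2.2) K| ≤ cb * K / L ^ U1 := by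
      refine le_trans ?_ h1
      unfold TT'
      rw [sum_product]
      refine sum_le_sum fun r _ => ?_
      rw [sum_product]
      refine sum_le_sum fun a _ => ?_
      apply sum_le_sum_of_subset_of_nonneg
      · intro e he
        rw [mem_Ioc] at he ⊢
        omega
      · intro e _ _
        exact abs_nonneg _
    have h3 : ∑ p ∈ TT' j H M, GA z (FP j H p.1 p.2.1 p.2.2) K ≤
        ∑ p ∈ TT' j H M, (|pv (FP j H p.1 p.2.1 p.2.2) K -
        SS z (FP j H p.1 p.2.1 p.2.2) * lF (FP j H p.1 p.2.1 p.2.2) K| + 3 * L * K1) := by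
      refine sum_le_sum fun p hp => ?_
      obtain ⟨s1, s2⟩ := hSSz (FP j H p.1 p.2.1 p.2.2)
      apply GA_le z _ L hL1 s1 s2
      intro k hk _
      have := hge2 p hp k hk
      omega
    refine h3.trans ?_
    rw [sum_add_distrib, sum_const, nsmul_eq_mul]
    have h4 : 3 * L * K1 ≤ K / L ^ U1 := by
      rw [le_div_iff₀ (hLp0 _)]
      calc 3 * L * K1 * L ^ U1 ≤ 3 * L * (((j : ℝ) + 2) * L ^ V) * L ^ U1 := by gcongr
        _ = (3 * ((j : ℝ) + 2)) * (L ^ (V + 1 + U1)) := by rw [pow_add, pow_add]; ring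
        _ ≤ L * L ^ (V + 1 + U1) := by gcongr; linarith
        _ = L ^ (V + 2 + U1) := by rw [← pow_succ']; congr 1; ring
        _ ≤ L ^ (V + 3 + U1) := hLmono _ _ (by omega)
        _ ≤ K := hK2'
    calc _ ≤ cb * K / L ^ U1 + cb * (K / L ^ U1) := by
          have h5 : (0:ℝ) ≤ 3 * L * K1 := by positivity
          apply add_le_add h2
          exact mul_le_mul hTc h4 h5 hcb0
      _ = _ := by ring
  have hcount := count_bad (TT' j H M) (fun p K => GA z (FP j H p.1 p.2.1 p.2.2) K) L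
    (max (lo (B - 1) H) 1) (2 * cb / L ^ U1) H (B - 1) U2 (by linarith) (le_max_right _ _)
    (by positivity) hmean (fun p _ K => abs_nonneg _) (by
      intro p _ x y hxy
      obtain ⟨s1, s2⟩ := hSSz (FP j H p.1 p.2.1 p.2.2)
      exact GA_lip z _ L hL1 s1 s2 x y hxy)
  have hB1 : B - 1 + 1 = B := by
    have : max B1 B2 + 1 ≤ B := hB
    omega
  rw [hB1] at hcount
  -- bad implies large
  have hsub : (TT' j H M).filter (fun p => Bad lo U B H z (FP j H p.1 p.2.1 p.2.2)) ⊆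
      (TT' j H M).filter (fun p => ∃ x : ℕ, max (lo (B - 1) H) 1 ≤ x ∧ (x : ℝ) * L ^ B ≤ H ∧
      (x : ℝ) / L ^ U2 < GA z (FP j H p.1 p.2.1 p.2.2) x) := by
    intro p hp
    rw [mem_filter] at hp ⊢
    obtain ⟨hpT, hnf, x, hx1, hx2, hx3⟩ := hp
    obtain ⟨f1, f2, f3, f4⟩ := hfacts p hpT
    have hx1' : lo (B - 1) H ≤ x := (hlo.1 _ _ H (by omega) hH3').trans hx1
    obtain ⟨-, hxL⟩ := hloB x hx1'
    have hxL1 : (1:ℝ) ≤ x := (hLp _).trans hxL
    refine ⟨hpT, x, max_le hx1' hxL1, hx2, lt_of_le_of_lt ?_ hx3⟩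
    set F := FP j H p.1 p.2.1 p.2.2 with hF
    have hxH : (x:ℝ) ≤ H := by
      refine le_trans ?_ hx2
      exact le_mul_of_one_le_right (Nat.cast_nonneg _) (hLp _)
    -- Euler product
    have hSge : 1 / L ≤ SS z F := by
      have h1 := hSl z hz3 F (natDegree_FP j H hj _ _ _) (fun q hq hqz =>
        (Pool.Agent.H300R2.BH.rho_ne_iff F q hq).mpr (hnf q hq hqz))
      refine le_trans ?_ h1
      have hzr : (3:ℝ) ≤ z := by exact_mod_cast hz3
      have hlz : 0 < Real.log z := Real.log_pos (by linarith)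
      rw [div_le_div_iff₀ hL0 (by positivity), one_mul]
      refine le_trans ?_ hll
      apply pow_le_pow_left₀ hlz.le
      rw [← Real.log_pow]
      exact Real.log_le_log (by linarith) (Nat.floor_le (by positivity))
    -- the main term
    have hK1x : (K1:ℝ) ≤ x / 2 := by
      have h1 : ((j : ℝ) + 2) * L ^ V ≤ x / 2 := by
        rw [le_div_iff₀ (by norm_num)]
        calc ((j : ℝ) + 2) * L ^ V * 2 = (2 * ((j : ℝ) + 2)) * L ^ V := by ring
          _ ≤ L * L ^ V := by gcongr; linarith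
          _ = L ^ (V + 1) := by ring
          _ ≤ L ^ (V + 3 + U1) := hLmono _ _ (by omega)
          _ ≤ x := hxL
      linarith
    have hla := la_lower F x K1 (((j:ℝ) + 2) * L) (by positivity) (by
        have : (K1:ℝ) ≤ x := by linarith
        exact_mod_cast this) (fun k hk _ => hge2 p hpT k hk) (by
        intro k hk hkx
        have h2 := hge2 p hpT k hk
        have h3 : (2:ℝ) ≤ ((F.eval (k : ℤ) : ℤ) : ℝ) := by exact_mod_cast h2
        have hk1 : 1 ≤ k := by omega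
        have h4 := FP_upper j H hj p.1 f1 p.2.1 p.2.2 k f2 f4 hk1
        have hkH : (k:ℝ) ≤ H := by
          have : (k:ℝ) ≤ x := by exact_mod_cast hkx
          linarith
        have h5 : ((F.eval (k : ℤ) : ℤ) : ℝ) ≤ (H:ℝ) ^ (j + 2) := by
          refine h4.trans ?_
          calc ((j:ℝ) + 1) * (H * (k:ℝ) ^ j) ≤ H * (H * (H:ℝ) ^ j) := by
                gcongr
                exact_mod_cast hHj
            _ = (H:ℝ) ^ (j + 2) := by ring
        calc Real.log ((F.eval (k : ℤ) : ℤ) : ℝ) ≤ Real.log ((H:ℝ) ^ (j + 2)) :=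
              Real.log_le_log (by linarith) h5
          _ = ((j:ℝ) + 2) * L := by rw [Real.log_pow]; push_cast; ring)
    have hla2 : (x:ℝ) / L ^ 2 ≤ la F x := by
      refine le_trans ?_ hla
      rw [div_le_div_iff₀ (hLp0 _) (by positivity)]
      calc (x:ℝ) * (((j:ℝ) + 2) * L) = (x / 2) * ((2 * ((j:ℝ) + 2)) * L) := by ring
        _ ≤ (x - K1) * (L * L) := by
            apply mul_le_mul (by linarith) _ (by positivity) (by linarith)
            gcongr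
            linarith
        _ = _ := by ring
    have e2 : L ^ U2 = L * L ^ 2 * L ^ U := by rw [hU2]; ring
    calc (x:ℝ) / L ^ U2 = (1 / L) * (x / L ^ 2) / L ^ U := by
          rw [e2]
          have p1 := hLp0 U
          have hne : L ≠ 0 := hL0.ne'
          have hne2 : L ^ U ≠ 0 := p1.ne'
          field_simp
      _ ≤ SS z F * la F x / L ^ U := by
          apply div_le_div_of_nonneg_right _ (hLp0 _).le
          have hS0 : 0 ≤ SS z F := (hSSz F).1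
          apply mul_le_mul hSge hla2 (by positivity) hS0
  have hcard : (((TT' j H M).filter (fun p => Bad lo U B H z (FP j H p.1 p.2.1 p.2.2))).card : ℝ) ≤
      96 * L ^ (2 * U2 + 1) * (2 * cb / L ^ U1 * (1 + L)) := by
    refine le_trans ?_ hcount
    exact_mod_cast card_le_card hsub
  refine hcard.trans ?_
  have hcb2 : cb ≤ (2 * H + 1) ^ (j + 1) := by
    rw [hcb, card_bx]
    have h1 : ∏ i : Fin (j - 1), (((2 * H + 1 : ℕ)) : ℝ) = (2 * (H:ℝ) + 1) ^ (j - 1) := by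
      rw [prod_const, card_univ, Fintype.card_fin]
      push_cast
      ring
    rw [h1]
    push_cast
    calc (2 * (H:ℝ) + 1) ^ (j - 1) * (2 * H + 1) * H ≤ (2 * (H:ℝ) + 1) ^ (j - 1) * (2 * H + 1) * (2 * H + 1) := by
          gcongr
          linarith
      _ = (2 * (H:ℝ) + 1) ^ (j + 1) := by
          rw [mul_assoc, ← pow_two, ← pow_add]
          congr 1
          omega
  rw [le_div_iff₀ (hLp0 _)]
  have e1 : L ^ U1 = L ^ (2 * U2 + 1) * L ^ 3 * L ^ (U + 1) := by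
    rw [← pow_add, ← pow_add, hU1, hU2]
    congr 1
    ring
  calc 96 * L ^ (2 * U2 + 1) * (2 * cb / L ^ U1 * (1 + L)) * L ^ (U + 1)
      = cb * (192 * (1 + L) / L ^ 3) := by
        rw [e1]
        have p1 := hLp0 (2 * U2 + 1)
        have p2 := hLp0 (U + 1)
        field_simp
        ring
    _ ≤ cb * 1 := by
        apply mul_le_mul_of_nonneg_left _ hcb0
        rw [div_le_one (hLp0 _)]
        nlinarith [mul_pos hL0 hL0]
    _ ≤ (2 * H + 1) ^ (j + 1) := by rw [mul_one]; exact hcb2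

end Pool.Agent.W81.FH
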