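import Pool.Agent.H300R2.FB.ThinAbs
import Pool.Agent.W81.FH.Count

/-!
Polynomials of height at most `H` with positive leading coefficient.
-/

namespace Pool.Agent.W81.FH

open Finset Polynomial Filter
open Pool.Agent.H442R2.EHI (evt_log_pow evt_log_ge)
open Pool.Agent.H300R2.BH
open Pool.Agent.H300R2.FB

lemma tR_le (j H : ℕ) (r : Fin (j - 1) → ℤ) (hr : r ∈ bx j (fun _ => H)) (n : ℕ) (hn : 1 ≤ n) :
    |tR j (fun i => (r i : ℝ)) n| ≤ ((j - 1 : ℕ) : ℝ) * (H * (n : ℝ) ^ (j - 1)) := by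
  unfold tR
  refine (abs_sum_le_sum_abs _ _).trans ?_
  have hn' : (1:ℝ) ≤ n := by exact_mod_cast hn
  calc _ ≤ ∑ i : Fin (j - 1), (H : ℝ) * (n : ℝ) ^ (j - 1) := by
        refine sum_le_sum fun i _ => ?_
        rw [abs_mul, abs_of_nonneg (by positivity : (0:ℝ) ≤ (n : ℝ) ^ ((i : ℕ) + 1))]
        have h1 := mem_bx hr i
        have hi := i.2
        apply mul_le_mul h1 (pow_le_pow_right₀ hn' (by omega)) (by positivity) (by positivity)
    _ = _ := by simp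

lemma FP_eval (j H : ℕ) (r : Fin (j - 1) → ℤ) (a e n : ℕ) :
    (((FP j H r a e).eval (n : ℤ) : ℤ) : ℝ) =
      ((a : ℝ) - H - 1) + tR j (fun i => (r i : ℝ)) n + e * (n : ℝ) ^ j := by
  unfold FP
  rw [FFr_eval]
  simp
  ring

lemma FP_lower (j H : ℕ) (hj : 1 ≤ j) (r : Fin (j - 1) → ℤ) (hr : r ∈ bx j (fun _ => H)) (a e n : ℕ)
    (ha : a ∈ Ioc 0 (0 + (2 * H + 1))) (hn : 1 ≤ n) (h : (j : ℝ) * H + 2 ≤ e * n) :
    2 ≤ (FP j H r a e).eval (n : ℤ) := by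
  have hn' : (1:ℝ) ≤ n := by exact_mod_cast hn
  have h1 := neg_abs_le (tR j (fun i => (r i : ℝ)) n)
  have h2 := tR_le j H r hr n hn
  rw [mem_Ioc] at ha
  have ha1 : (1:ℝ) ≤ a := by exact_mod_cast ha.1
  have hp : (1:ℝ) ≤ (n:ℝ) ^ (j - 1) := one_le_pow₀ hn'
  have hjj : ((j - 1 : ℕ) : ℝ) = j - 1 := by rw [Nat.cast_sub hj]; simp
  have hnj : (n:ℝ) ^ j = (n:ℝ) ^ (j - 1) * n := by rw [← pow_succ]; congr 1; omega
  have hH0 : (0:ℝ) ≤ H := Nat.cast_nonneg _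
  have key : (2:ℝ) ≤ (((FP j H r a e).eval (n : ℤ) : ℤ) : ℝ) := by
    rw [FP_eval, hnj]
    rw [hjj] at h2
    have h3 : (j * H + 2 : ℝ) * (n:ℝ) ^ (j - 1) ≤ e * n * (n:ℝ) ^ (j - 1) := by gcongr
    nlinarith
  exact_mod_cast key

lemma FP_upper (j H : ℕ) (hj : 1 ≤ j) (r : Fin (j - 1) → ℤ) (hr : r ∈ bx j (fun _ => H)) (a e n : ℕ)
    (ha : a ∈ Ioc 0 (0 + (2 * H + 1))) (he : e ≤ H) (hn : 1 ≤ n) :
    (((FP j H r a e).eval (n : ℤ) : ℤ) : ℝ) ≤ (j + 1) * (H * (n : ℝ) ^ j) := by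
  have hn' : (1:ℝ) ≤ n := by exact_mod_cast hn
  have h1 := le_abs_self (tR j (fun i => (r i : ℝ)) n)
  have h2 := tR_le j H r hr n hn
  rw [mem_Ioc] at ha
  have ha1 : (a:ℝ) ≤ 2 * H + 1 := by exact_mod_cast (by omega : a ≤ 2 * H + 1)
  have hp : (1:ℝ) ≤ (n:ℝ) ^ (j - 1) := one_le_pow₀ hn'
  have hjj : ((j - 1 : ℕ) : ℝ) = j - 1 := by rw [Nat.cast_sub hj]; simp
  have hnj : (n:ℝ) ^ (j - 1) ≤ (n:ℝ) ^ j := pow_le_pow_right₀ hn' (by omega)
  have hH0 : (0:ℝ) ≤ H := Nat.cast_nonneg _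
  have he' : (e:ℝ) ≤ H := by exact_mod_cast he
  have hj1 : (0:ℝ) ≤ (j:ℝ) - 1 := by
    have : (1:ℝ) ≤ j := by exact_mod_cast hj
    linarith
  rw [FP_eval]
  rw [hjj] at h2
  have h3 : (e:ℝ) * (n:ℝ) ^ j ≤ H * (n:ℝ) ^ j := by gcongr
  have h4 : (H:ℝ) ≤ H * (n:ℝ) ^ j := le_mul_of_one_le_right hH0 (hp.trans hnj)
  have h5 : ((j:ℝ) - 1) * (H * (n:ℝ) ^ (j - 1)) ≤ ((j:ℝ) - 1) * (H * (n:ℝ) ^ j) := by gcongr
  linarith

/-- the error in Schinzel's formula, absolute values -/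
noncomputable def GA (z : ℕ) (F : ℤ[X]) (K : ℕ) : ℝ := |pa F K - SS z F * la F K|

lemma pa_diff (F : ℤ[X]) (x y : ℕ) (h : x ≤ y) : 0 ≤ pa F y - pa F x ∧ pa F y - pa F x ≤ y - x := by
  classical
  have hd : Icc 1 y = Icc 1 x ∪ Ioc x y := by
    ext k; simp only [mem_union, mem_Icc, mem_Ioc]; omega
  have hdis : Disjoint (Icc 1 x) (Ioc x y) := by
    rw [disjoint_left]
    intro k hk hk2
    rw [mem_Icc] at hk; rw [mem_Ioc] at hk2; omega
  have h1 : pa F y = pa F x + (((Ioc x y).filter (fun k : ℕ => (F.eval (k : ℤ)).natAbs.Prime)).card : ℝ) := by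
    unfold pa
    rw [hd, filter_union, card_union_of_disjoint (disjoint_filter_filter hdis)]
    push_cast
    ring
  have h2 : (((Ioc x y).filter (fun k : ℕ => (F.eval (k : ℤ)).natAbs.Prime)).card : ℝ) ≤ y - x := by
    have h3 := card_filter_le (Ioc x y) (fun k : ℕ => (F.eval (k : ℤ)).natAbs.Prime)
    rw [Nat.card_Ioc] at h3
    have h4 : (((Ioc x y).filter (fun k : ℕ => (F.eval (k : ℤ)).natAbs.Prime)).card : ℝ) ≤ ((y - x : ℕ) : ℝ) := by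
      exact_mod_cast h3
    rwa [Nat.cast_sub h] at h4
  rw [h1]
  constructor
  · rw [add_sub_cancel_left]
    positivity
  · linarith

lemma la_diff (F : ℤ[X]) (x y : ℕ) (h : x ≤ y) : 0 ≤ la F y - la F x ∧ la F y - la F x ≤ 2 * ((y:ℝ) - x) := by
  classical
  have hd : Icc 1 y = Icc 1 x ∪ Ioc x y := by
    ext k; simp only [mem_union, mem_Icc, mem_Ioc]; omega
  have hdis : Disjoint (Icc 1 x) (Ioc x y) := by
    rw [disjoint_left]
    intro k hk hk2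
    rw [mem_Icc] at hk; rw [mem_Ioc] at hk2; omega
  have h1 : la F y = la F x + ∑ k ∈ (Ioc x y).filter (fun k : ℕ => 2 ≤ |F.eval (k : ℤ)|),
    1 / Real.log |((F.eval (k : ℤ) : ℤ) : ℝ)| := by
    unfold la
    rw [hd, filter_union, sum_union (disjoint_filter_filter hdis)]
  rw [h1]
  constructor
  · rw [add_sub_cancel_left]
    exact sum_nonneg fun k hk => (la_term F k (mem_filter.1 hk).2).1
  · rw [add_sub_cancel_left]
    calc _ ≤ ∑ k ∈ (Ioc x y).filter (fun k : ℕ => 2 ≤ |F.eval (k : ℤ)|), (2:ℝ) :=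
          sum_le_sum fun k hk => (la_term F k (mem_filter.1 hk).2).2
      _ ≤ ∑ k ∈ Ioc x y, (2:ℝ) :=
          sum_le_sum_of_subset_of_nonneg (filter_subset _ _) fun _ _ _ => by norm_num
      _ = 2 * ((y:ℝ) - x) := by
          rw [sum_const, Nat.card_Ioc, nsmul_eq_mul, Nat.cast_sub h]; ring

lemma GA_lip (z : ℕ) (F : ℤ[X]) (L : ℝ) (hL : 1 ≤ L) (h0 : 0 ≤ SS z F) (h1 : SS z F ≤ L) (x y : ℕ)
    (h : x ≤ y) : |GA z F y - GA z F x| ≤ 3 * L * ((y:ℝ) - x) := by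
  have hxy : (0:ℝ) ≤ (y:ℝ) - x := by
    have : (x:ℝ) ≤ y := by exact_mod_cast h
    linarith
  obtain ⟨a1, a2⟩ := pa_diff F x y h
  obtain ⟨b1, b2⟩ := la_diff F x y h
  unfold GA
  refine (abs_abs_sub_abs_le _ _).trans ?_
  have e1 : (pa F y - SS z F * la F y) - (pa F x - SS z F * la F x) =
      (pa F y - pa F x) - SS z F * (la F y - la F x) := by ring
  rw [e1]
  have h2 : 0 ≤ SS z F * (la F y - la F x) := mul_nonneg h0 b1
  have h3 : SS z F * (la F y - la F x) ≤ L * (2 * ((y:ℝ) - x)) := mul_le_mul h1 b2 b1 (by linarith)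
  rw [abs_le]
  constructor <;> nlinarith

/-- comparison with the count of positive prime values -/
lemma GA_le (z : ℕ) (F : ℤ[X]) (L : ℝ) (hL : 1 ≤ L) (h0 : 0 ≤ SS z F) (h1 : SS z F ≤ L) (K K1 : ℕ)
    (h : ∀ k : ℕ, K1 < k → k ≤ K → 0 ≤ F.eval (k : ℤ)) :
    GA z F K ≤ |pv F K - SS z F * lF F K| + 3 * L * K1 := by
  obtain ⟨a1, a2, a3⟩ := abs_conv F K K1 h
  unfold GA
  have e1 : pa F K - SS z F * la F K = (pv F K - SS z F * lF F K) + ((pa F K - pv F K) -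
      SS z F * (la F K - lF F K)) := by ring
  rw [e1]
  refine (abs_add_le _ _).trans (add_le_add le_rfl ?_)
  have h2 : 0 ≤ SS z F * (la F K - lF F K) := mul_nonneg h0 a2
  have h3 : SS z F * (la F K - lF F K) ≤ L * (2 * K1) := mul_le_mul h1 a3 a2 (by linarith)
  have h4 : (0:ℝ) ≤ K1 := Nat.cast_nonneg _
  rw [abs_le] at a1 ⊢
  constructor <;> nlinarith

/-- lower bound for the main term -/
lemma la_lower (F : ℤ[X]) (x K1 : ℕ) (Λ : ℝ) (hΛ : 0 < Λ) (hK : K1 ≤ x)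
    (h2 : ∀ k : ℕ, K1 < k → k ≤ x → 2 ≤ F.eval (k : ℤ))
    (hu : ∀ k : ℕ, K1 < k → k ≤ x → Real.log ((F.eval (k : ℤ) : ℤ) : ℝ) ≤ Λ) :
    ((x:ℝ) - K1) / Λ ≤ la F x := by
  classical
  unfold la
  have hsub : Ioc K1 x ⊆ (Icc 1 x).filter (fun k : ℕ => 2 ≤ |F.eval (k : ℤ)|) := by
    intro k hk
    rw [mem_Ioc] at hk
    rw [mem_filter, mem_Icc]
    exact ⟨⟨by omega, hk.2⟩, (h2 k hk.1 hk.2).trans (le_abs_self _)⟩
  calc ((x:ℝ) - K1) / Λ = ∑ k ∈ Ioc K1 x, 1 / Λ := by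
        rw [sum_const, Nat.card_Ioc, nsmul_eq_mul, Nat.cast_sub hK]; ring
    _ ≤ ∑ k ∈ Ioc K1 x, 1 / Real.log |((F.eval (k : ℤ) : ℤ) : ℝ)| := by
        refine sum_le_sum fun k hk => ?_
        rw [mem_Ioc] at hk
        have h3 := h2 k hk.1 hk.2
        have h4 : (2:ℝ) ≤ ((F.eval (k : ℤ) : ℤ) : ℝ) := by exact_mod_cast h3
        rw [abs_of_nonneg (by linarith)]
        apply one_div_le_one_div_of_le
        · exact Real.log_pos (by linarith)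
        · exact hu k hk.1 hk.2
    _ ≤ _ := by
        apply sum_le_sum_of_subset_of_nonneg hsub
        intro k hk _
        exact (la_term F k (mem_filter.1 hk).2).1

end Pool.Agent.W81.FH
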